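import Pool.Agent.T2H64.EM2

/-!
# Hooley's conjecture: two-sided bounds for EVERY modulus, and the asymptotic for every `Q` with
`φ(Q) log X / X → ∞`

There is an absolute constant `C` such that for every `0 < ε ≤ 1`, all large `X` and EVERY integer `1 ≤ Q ≤ X`
(no exceptional moduli, no hypothesis)

* `(1 - ε) X log X - (1 + ε) X² / φ(Q) ≤ G(X, Q) ≤ (1 + ε) X log X + C X² / φ(Q)`,
* `G(X, Q) ≥ X ((3/2) log Q - (1 + ε) log X)`,
* if `C X ≤ ε φ(Q) log X`, then `|G(X, Q) - X log Q| ≤ ε X log Q`.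

So in the critical range `X / φ(Q) ≍ log X` the quotient `G(X, Q) / (X log Q)` is bounded from above and from below
(by `1/2 - o(1)`) for every modulus, and it tends to one uniformly as `φ(Q) log X / X → ∞`.

Proof. `G(X, Q)` is the diagonal sum `∑ Λ(n)²`, plus the sum over the pairs of prime powers whose difference is a multiple of `Q`,
minus `X² / φ(Q)`, up to small terms. The pairs are bounded from above by the Selberg sieve, uniformly in the difference, and
the average of `h / φ(h)` is bounded. The second lower bound is `H336V.main` (Pool/Agent/H336R2/V/Main.lean).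
-/

set_option autoImplicit false

namespace Pool.Agent.Results.MP_5d318d_nt.EveryModulus

open Finset

/-- `ψ(X; Q, a) = ∑_{n ≤ X, n ≡ a mod Q} Λ(n)` for `0 ≤ a < Q` -/
noncomputable def psiAP (X : ℝ) (Q a : ℕ) : ℝ :=
  ∑ n ∈ (Icc 1 ⌊X⌋₊).filter (fun n => n % Q = a), ArithmeticFunction.vonMangoldt n

/-- The variance `G(X,Q) = ∑_{a mod Q, (a,Q)=1} (ψ(X;Q,a) - X/φ(Q))²`. -/
noncomputable def G (X : ℝ) (Q : ℕ) : ℝ :=
  ∑ a ∈ (range Q).filter (fun a => Nat.Coprime a Q), (psiAP X Q a - X / (Nat.totient Q : ℝ)) ^ 2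

/-- Two-sided bounds for the variance of the primes in the reduced classes of EVERY modulus `Q ≤ X`, and Hooley's
asymptotic for every modulus with `X / φ(Q)` small compared with `log X`. -/
theorem result : ∃ C : ℝ, 0 < C ∧ ∀ ε : ℝ, 0 < ε → ε ≤ 1 → ∃ X₀ : ℝ, ∀ X : ℝ, X₀ ≤ X →
    ∀ Q : ℕ, 1 ≤ Q → (Q : ℝ) ≤ X →
      (1 - ε) * (X * Real.log X) - (1 + ε) * (X ^ 2 / (Nat.totient Q : ℝ)) ≤ G X Q ∧
      X * (3 / 2 * Real.log Q - (1 + ε) * Real.log X) ≤ G X Q ∧
      G X Q ≤ (1 + ε) * (X * Real.log X) + C * (X ^ 2 / (Nat.totient Q : ℝ)) ∧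
      (C * X ≤ ε * ((Nat.totient Q : ℝ) * Real.log X) → |G X Q - X * Real.log Q| ≤ ε * (X * Real.log Q)) :=
  Pool.Agent.T2H64.EM.main

end Pool.Agent.Results.MP_5d318d_nt.EveryModulus
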