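import Pool.Agent.T2H31.HV.All

set_option autoImplicit false

/-!
# Hooley's conjecture holds in the random sieve model of Banks, Ford and Tao

For every prime `q` a residue class `a q` modulo `q` is drawn uniformly and independently. The random primes are
the integers `n ≥ 3` that are in none of the classes `a q mod q` with `q ≤ zBFT n`, where the sieving limit `zBFT n` is
the largest `m` with `∏_{q ≤ m} (1 - 1 / q)⁻¹ ≤ log n`. The classes modulo `Q` that can contain many random primes are those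
not sieved by the primes dividing `Q`; there are `φ(Q)` of them.

The theorem: almost surely, for every `ε > 0`, the sum over these classes of
`(∑_{n ≤ X, n ≡ A (Q), n a random prime} log n - X / φ(Q))²` is asymptotic to `X log Q`, uniformly for
`X^(1/2+ε) < Q < X`. This is the range of Hooley's conjecture for the primes.
-/

open MeasureTheory ProbabilityTheory Filter Topology

namespace Pool.Agent.Results.MP_5d318d_nt.RandomSieveModel

/-- `V m = ∏ (1 - 1 / q)` over the primes `q ≤ m` -/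
noncomputable def V (m : ℕ) : ℝ := ∏ q ∈ (Finset.range (m + 1)).filter Nat.Prime, (1 - 1 / (q : ℝ))

/-- the classes `a q` are independent, and `a q` is uniform on `0, …, q - 1` for every prime `q` -/
structure Model {Ω : Type} [MeasurableSpace Ω] (P : Measure Ω) (a : ℕ → Ω → ℕ) : Prop where
  measurable : ∀ q, Measurable (a q)
  independent : iIndepFun a P
  uniform : ∀ q, q.Prime → ∀ r < q, P.real {ω | a q ω = r} = 1 / q

/-- the sieving limit of Banks, Ford and Tao: the largest `m` with `∏_{q ≤ m} (1 - 1 / q)⁻¹ ≤ log n` -/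
noncomputable def zBFT (n : ℕ) : ℕ := sSup {m : ℕ | (V m)⁻¹ ≤ Real.log n}

/-- the set of the random primes -/
def R {Ω : Type} (a : ℕ → Ω → ℕ) (ω : Ω) : Set ℕ :=
  {n | 3 ≤ n ∧ ∀ q ≤ zBFT n, q.Prime → n % q ≠ a q ω}

/-- the classes `A` modulo `Q` that are not sieved by the primes dividing `Q` -/
def Allowed {Ω : Type} (a : ℕ → Ω → ℕ) (ω : Ω) (Q : ℕ) : Finset ℕ :=
  (Finset.range Q).filter fun A => ∀ p ∈ Q.primeFactors, A % p ≠ a p ω

open Classical in
/-- `ψ(X; Q, A)`: the sum of `log n` over the random primes `n ≤ X` with `n ≡ A mod Q` -/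
noncomputable def psi {Ω : Type} (a : ℕ → Ω → ℕ) (ω : Ω) (X : ℝ) (Q A : ℕ) : ℝ :=
  ∑ n ∈ (Finset.Icc 1 ⌊X⌋₊).filter (fun n => n ∈ R a ω ∧ n % Q = A), Real.log n

/-- `G(X, Q)`: the variance of the random primes over the classes modulo `Q` -/
noncomputable def G {Ω : Type} (a : ℕ → Ω → ℕ) (ω : Ω) (X : ℝ) (Q : ℕ) : ℝ :=
  ∑ A ∈ Allowed a ω Q, |psi a ω X Q A - X / Nat.totient Q| ^ 2

theorem result :
    (∃ (Ω : Type) (_ : MeasurableSpace Ω) (P : Measure Ω) (a : ℕ → Ω → ℕ), Model P a) ∧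
    Tendsto (fun n => V (zBFT n) * Real.log n) atTop (𝓝 1) ∧
    ∀ (Ω : Type) [MeasurableSpace Ω] (P : Measure Ω) (a : ℕ → Ω → ℕ), Model P a →
      ∀ᵐ ω ∂P, (∀ Q : ℕ, 1 ≤ Q → (Allowed a ω Q).card = Nat.totient Q) ∧
        ∀ ε δ : ℝ, 0 < ε → 0 < δ → ∃ X₀ : ℝ, ∀ X : ℝ, X₀ ≤ X → ∀ Q : ℕ,
          X ^ (1 / 2 + ε) < (Q : ℝ) → (Q : ℝ) < X → |G a ω X Q / (X * Real.log Q) - 1| ≤ δ := by
  refine ⟨?_, Pool.Agent.T2H32.BF.z0_lim, ?_⟩
  · obtain ⟨Ω, i, P, a, h⟩ := Pool.Agent.T2H32.BF.exists_model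
    exact ⟨Ω, i, P, a, h.measurable, h.independent, h.uniform⟩
  · intro Ω _ P a hmod
    have h : Pool.Agent.T2H32.BF.Model P a := ⟨hmod.measurable, hmod.independent, hmod.uniform⟩
    filter_upwards [Pool.Agent.T2H31.HV.main_all Ω P a h] with ω hω
    refine ⟨hω.1, fun ε δ hε hδ => ?_⟩
    obtain ⟨X₀, hX₀⟩ := eventually_atTop.1 (hω.2 ε δ hε hδ)
    refine ⟨X₀, fun X hX Q h1 h2 => ?_⟩
    have h3 := hX₀ X hX Q h1 h2
    have h4 : G a ω X Q = Pool.Agent.T2H31.HV.GX Pool.Agent.T2H32.BF.z0 (fun q => a q ω) X Q := by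
      unfold G Pool.Agent.T2H31.HV.GX
      apply Finset.sum_congr rfl
      intro A _
      rw [sq_abs]
      rfl
    rw [h4]
    exact h3

end Pool.Agent.Results.MP_5d318d_nt.RandomSieveModel
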