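import Pool.Agent.T2H58.SE.Pol2
import Pool.Agent.T2H58.SE.Gen
import Pool.Agent.T2H58.SE.Small
import Pool.Agent.TH935.HM1

/-!
# Hooley's conjecture for almost all moduli near the values of real polynomials

Nothing is used besides Mathlib in the statement.

Method. By the inverse theorem for Weyl sums the additive energy of a sufficiently large order `h` of the integers `⌊P(n)⌋`,
`n ≤ x`, is `O(x^(2h-d))`, uniformly in the lower coefficients of `P`. The circle method then gives the correlations of the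
von Mangoldt function with small multiples of almost all of these moduli.
-/

set_option autoImplicit false

namespace Pool.Agent.Results.MP_5d318d_nt.RealPolynomialModuli

open Finset Polynomial

/-- `ψ(x; q, a) = ∑_{n ≤ x, n ≡ a mod q} Λ(n)` for `0 ≤ a < q` -/
noncomputable def psiAP (x : ℝ) (q a : ℕ) : ℝ :=
  ∑ n ∈ (Icc 1 ⌊x⌋₊).filter (fun n => n % q = a), ArithmeticFunction.vonMangoldt n

/-- The variance `G(x,q) = ∑_{a mod q, (a,q)=1} (ψ(x;q,a) - x/φ(q))²`. -/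
noncomputable def G (x : ℝ) (q : ℕ) : ℝ :=
  ∑ a ∈ (range q).filter (fun a => Nat.Coprime a q), (psiAP x q a - x / (Nat.totient q : ℝ)) ^ 2

/-- `|G(y,Q) - y log Q| ≤ ε y log Q` for ALL real `y` with `Q ≤ y ≤ Q R`. -/
def Good (ε R : ℝ) (Q : ℕ) : Prop :=
  ∀ y : ℝ, (Q : ℝ) ≤ y → y ≤ Q * R → |G y Q - y * Real.log Q| ≤ ε * (y * Real.log Q)

open Classical in
/-- the moduli near `P(n)` which are not small -/
theorem one_sign (d : ℕ) (hd : 1 ≤ d) (A A₁ B W U : ℕ) (ε : ℝ) (hε : 0 < ε) (hε1 : ε ≤ 1) :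
    ∃ x₀ : ℕ, ∀ x : ℕ, x₀ ≤ x → ∀ P : ℝ[X], P.natDegree ≤ d → 1 ≤ B * |P.coeff d| → |P.coeff d| ≤ B →
      (∀ n ∈ Icc 1 x, |P.eval (n : ℝ)| ≤ B * (x : ℝ) ^ d) →
      (((Icc 1 x).filter (fun n : ℕ => ∃ Q : ℕ, |(Q : ℝ) - P.eval (n : ℝ)| ≤ Real.log x ^ W ∧
        (x : ℝ) ^ d ≤ 2 * Real.log x ^ A₁ * Q ∧ ¬ Good ε (Real.log x ^ A) Q)).card : ℝ) ≤ x / Real.log x ^ (U + 2) := by
  obtain ⟨p, hp, hen⟩ := Pool.Agent.T2H58.SE.pol_fam d hd
  obtain ⟨N₁, hen1⟩ := hen (B + 1)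
  obtain ⟨N₀, hmod⟩ := Pool.Agent.TH935.HM.mod_fam p 1 (A + A₁ + 1) (U + W + 4) ε hε hε1
  have e1 : ∀ᶠ x : ℕ in Filter.atTop, Real.log x ^ W + 2 ≤ x := by
    have h3 : (fun y : ℝ => Real.log y ^ W) =o[Filter.atTop] fun y : ℝ => y := by
      have := isLittleO_log_rpow_rpow_atTop (s := 1) (W : ℝ) one_pos
      refine (this.congr' ?_ ?_)
      · filter_upwards with y
        rw [← Real.rpow_natCast]
      · filter_upwards with y; simp
    have h4 := h3.def (show (0 : ℝ) < 1 / 2 by positivity)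
    filter_upwards [(tendsto_natCast_atTop_atTop (R := ℝ)).eventually h4, Filter.eventually_ge_atTop 4] with x hx hx1
    have hx1' : (4 : ℝ) ≤ x := by exact_mod_cast hx1
    rw [Real.norm_of_nonneg (pow_nonneg (Real.log_nonneg (by linarith)) _), Real.norm_of_nonneg (by linarith)] at hx
    linarith
  have e2 := (Real.tendsto_log_atTop.comp (tendsto_natCast_atTop_atTop (R := ℝ))).eventually_ge_atTop (max 5 (2 * (B + 1)))
  obtain ⟨x₁, hx₁⟩ := Filter.eventually_atTop.1 (e1.and e2)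
  refine ⟨x₁ + N₀ + N₁ + 1, fun x hx P hP hP1 hP2 hPb => ?_⟩
  obtain ⟨h1, h2⟩ := hx₁ x (by omega)
  simp only [Function.comp] at h2
  obtain ⟨L, hL⟩ : ∃ L, L = Real.log (x : ℝ) := ⟨_, rfl⟩
  rw [← hL] at h1 h2 ⊢
  have hL5 : 5 ≤ L := (le_max_left _ _).trans h2
  have hLB : 2 * ((B : ℝ) + 1) ≤ L := (le_max_right _ _).trans h2
  have hL0 : 0 < L := by linarith
  have hL1 : 1 ≤ L := by linarith
  have hx1 : 1 ≤ x := by omega
  have hx1r : (1 : ℝ) ≤ x := by exact_mod_cast hx1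
  have hxd : (x : ℝ) ≤ (x : ℝ) ^ d := le_self_pow₀ hx1r (by omega)
  have hxdn : x ≤ x ^ d := Nat.le_self_pow (by omega) x
  obtain ⟨N, hN⟩ : ∃ N : ℕ, N = (B + 1) * x ^ d := ⟨_, rfl⟩
  have hNr : (N : ℝ) = (B + 1) * (x : ℝ) ^ d := by rw [hN]; push_cast; rfl
  have hNx : x ^ d ≤ N := by rw [hN]; exact Nat.le_mul_of_pos_left _ (by omega)
  have hNN : x ≤ N := hxdn.trans hNx
  have hlN : L ≤ Real.log N := by
    rw [hL]
    exact Real.log_le_log (by linarith) (by exact_mod_cast hNN)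
  have hlN1 : 1 ≤ Real.log (N : ℝ) := by linarith
  obtain ⟨w, hw⟩ : ∃ w : ℕ, w = ⌊L ^ W⌋₊ + 1 := ⟨_, rfl⟩
  have hwr : (w : ℝ) ≤ L ^ W + 1 := by
    rw [hw]; push_cast
    linarith [Nat.floor_le (show 0 ≤ L ^ W by positivity)]
  have hw2 : L ^ W < w := by
    rw [hw]; push_cast
    exact Nat.lt_floor_add_one _
  -- one shift
  have hone : ∀ e ∈ Icc (-(w : ℤ)) w, (((Icc 1 x).filter (fun n : ℕ => 0 < ⌊P.eval (n : ℝ)⌋ + e ∧
      (x : ℝ) ^ d ≤ 2 * L ^ A₁ * (⌊P.eval (n : ℝ)⌋ + e).toNat ∧ ¬ Good ε (L ^ A) (⌊P.eval (n : ℝ)⌋ + e).toNat)).card : ℝ) ≤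
      x / L ^ (U + W + 4) := by
    intro e he
    rw [mem_Icc] at he
    have h3 := hmod N (by omega) x (fun m => ⌊P.eval (m : ℝ)⌋ + e) (by
      intro m hm
      have h4 := hPb m hm
      have h5 := Int.floor_le (P.eval (m : ℝ))
      have h6 := Int.lt_floor_add_one (P.eval (m : ℝ))
      have h7 : |(e : ℝ)| ≤ w := by
        rw [abs_le]
        constructor
        · exact_mod_cast he.1
        · exact_mod_cast he.2
      have h8 : |((⌊P.eval (m : ℝ)⌋ + e : ℤ) : ℝ)| ≤ N := by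
        rw [hNr]
        push_cast
        rw [abs_le] at h4 h7 ⊢
        constructor <;> nlinarith
      exact_mod_cast h8) (by
      rw [Pool.Agent.T2H58.SE.energy_add]
      exact hen1 N (by omega) x (by rw [hNr]; push_cast; rfl) P hP (by push_cast; nlinarith [abs_nonneg (P.coeff d)])
        (by push_cast; linarith))
      ((Icc 1 x).filter (fun n : ℕ => 0 < ⌊P.eval (n : ℝ)⌋ + e ∧
        (x : ℝ) ^ d ≤ 2 * L ^ A₁ * (⌊P.eval (n : ℝ)⌋ + e).toNat ∧ ¬ Good ε (L ^ A) (⌊P.eval (n : ℝ)⌋ + e).toNat))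
      (filter_subset _ _) (by
      intro m hm
      rw [mem_filter] at hm
      obtain ⟨_, h4, h5, h6⟩ := hm
      obtain ⟨Q, hQ⟩ : ∃ Q : ℕ, Q = (⌊P.eval (m : ℝ)⌋ + e).toNat := ⟨_, rfl⟩
      rw [← hQ] at h5 h6 ⊢
      have hQ0 : (0 : ℝ) ≤ Q := Nat.cast_nonneg Q
      refine ⟨h4, ?_, ?_⟩
      · calc (N : ℝ) = ((B : ℝ) + 1) * (x : ℝ) ^ d := hNr
          _ ≤ (B + 1) * (2 * L ^ A₁ * Q) := by gcongr
          _ = Q * ((2 * (B + 1)) * L ^ A₁) := by ring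
          _ ≤ Q * (L * L ^ A₁) := by gcongr
          _ = Q * L ^ (A₁ + 1) := by rw [pow_succ']
          _ ≤ Q * Real.log N ^ (A₁ + 1) := by gcongr
          _ ≤ Q * Real.log N ^ (A + A₁ + 1) := by
              apply mul_le_mul_of_nonneg_left _ hQ0
              exact pow_le_pow_right₀ hlN1 (by omega)
      · unfold Good at h6
        push Not at h6
        obtain ⟨y, hy1, hy2, hy3⟩ := h6
        refine ⟨y, hy1, hy2.trans ?_, not_le.2 hy3⟩
        apply mul_le_mul_of_nonneg_left _ hQ0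
        calc L ^ A ≤ Real.log N ^ A := by gcongr
          _ ≤ Real.log N ^ (A + A₁ + 1) := pow_le_pow_right₀ hlN1 (by omega))
    refine h3.trans ?_
    apply div_le_div_of_nonneg_left (Nat.cast_nonneg _) (by positivity)
    gcongr
  have hsub : (Icc 1 x).filter (fun n : ℕ => ∃ Q : ℕ, |(Q : ℝ) - P.eval (n : ℝ)| ≤ L ^ W ∧
        (x : ℝ) ^ d ≤ 2 * L ^ A₁ * Q ∧ ¬ Good ε (L ^ A) Q) ⊆
      (Icc (-(w : ℤ)) w).biUnion (fun e => (Icc 1 x).filter (fun n : ℕ => 0 < ⌊P.eval (n : ℝ)⌋ + e ∧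
      (x : ℝ) ^ d ≤ 2 * L ^ A₁ * (⌊P.eval (n : ℝ)⌋ + e).toNat ∧ ¬ Good ε (L ^ A) (⌊P.eval (n : ℝ)⌋ + e).toNat)) := by
    intro n hn
    rw [mem_filter] at hn
    obtain ⟨hn1, Q, h3, h4, h5⟩ := hn
    rw [mem_biUnion]
    have h6 := Int.floor_le (P.eval (n : ℝ))
    have h7 := Int.lt_floor_add_one (P.eval (n : ℝ))
    have hQ0 : 0 < Q := by
      rcases Nat.eq_zero_or_pos Q with h | h
      · exfalso
        rw [h, Nat.cast_zero, mul_zero] at h4
        linarith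
      · exact h
    rw [abs_le] at h3
    refine ⟨(Q : ℤ) - ⌊P.eval (n : ℝ)⌋, ?_, ?_⟩
    · rw [mem_Icc]
      have hw3 : L ^ W + 1 < w + 1 := by linarith
      constructor
      · have h8 : (-(w : ℝ)) - 1 < (Q : ℝ) - ⌊P.eval (n : ℝ)⌋ := by linarith
        have h9 : (-(w : ℤ)) - 1 < (Q : ℤ) - ⌊P.eval (n : ℝ)⌋ := by exact_mod_cast h8
        omega
      · have h8 : (Q : ℝ) - ⌊P.eval (n : ℝ)⌋ < w + 1 := by linarith
        have h9 : (Q : ℤ) - ⌊P.eval (n : ℝ)⌋ < w + 1 := by exact_mod_cast h8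
        omega
    · rw [mem_filter]
      have e3 : ⌊P.eval (n : ℝ)⌋ + ((Q : ℤ) - ⌊P.eval (n : ℝ)⌋) = Q := by ring
      rw [e3, Int.toNat_natCast]
      exact ⟨hn1, by exact_mod_cast hQ0, h4, h5⟩
  have h3 := (Nat.cast_le (α := ℝ)).2 ((card_le_card hsub).trans card_biUnion_le)
  refine h3.trans ?_
  rw [Nat.cast_sum]
  refine (sum_le_sum hone).trans ?_
  rw [sum_const, nsmul_eq_mul, Int.card_Icc]
  have h4 : ((w : ℤ) + 1 - -(w : ℤ)).toNat = 2 * w + 1 := by omega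
  rw [h4]
  push_cast
  have hLW : 1 ≤ L ^ W := one_le_pow₀ hL1
  calc (2 * (w : ℝ) + 1) * (x / L ^ (U + W + 4)) ≤ (5 * L ^ W) * (x / L ^ (U + W + 4)) := by gcongr; linarith
    _ = 5 * (x / L ^ (U + 4)) := by
        have e : L ^ (U + W + 4) = L ^ W * L ^ (U + 4) := by rw [← pow_add]; congr 1; ring
        rw [e]; field_simp
    _ ≤ L * (x / L ^ (U + 4)) := by gcongr
    _ = x / L ^ (U + 3) := by rw [pow_succ L (U + 3)]; field_simp
    _ ≤ x / L ^ (U + 2) := by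
        apply div_le_div_of_nonneg_left (Nat.cast_nonneg _) (by positivity) (pow_le_pow_right₀ hL1 (by omega))

open Classical in
/-- **Hooley's conjecture for almost all moduli near the values of real polynomials.** Let `d ≥ 1`, `A`, `B`, `W`, `U` and
`0 < ε ≤ 1` be fixed and let `x` be large. Let `P` be ANY real polynomial of degree at most `d` such that the coefficient of
`X ^ d` lies between `1 / B` and `B` in absolute value and `|P(n)| ≤ B x ^ d` for all the integers `1 ≤ n ≤ x` (the lower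
coefficients are otherwise arbitrary and may depend on `x`). Then, for all the integers `1 ≤ n ≤ x` with at most
`x / (log x) ^ U` exceptions, ALL the integers `Q` with `|Q - |P(n)|| ≤ (log x) ^ W` are positive and satisfy
`|G(y,Q) - y log Q| ≤ ε y log Q` for ALL real `y` with `Q ≤ y ≤ Q (log x) ^ A`. -/
theorem result (d : ℕ) (hd : 1 ≤ d) (A B W U : ℕ) (ε : ℝ) (hε : 0 < ε) (hε1 : ε ≤ 1) :
    ∃ x₀ : ℕ, ∀ x : ℕ, x₀ ≤ x → ∀ P : ℝ[X], P.natDegree ≤ d → 1 ≤ B * |P.coeff d| → |P.coeff d| ≤ B →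
      (∀ n ∈ Icc 1 x, |P.eval (n : ℝ)| ≤ B * (x : ℝ) ^ d) →
      (((Icc 1 x).filter (fun n : ℕ => ¬ ∀ Q : ℤ, abs ((Q : ℝ) - |P.eval (n : ℝ)|) ≤ Real.log x ^ W →
        0 < Q ∧ Good ε (Real.log x ^ A) Q.toNat)).card : ℝ) ≤ x / Real.log x ^ U := by
  obtain ⟨A₁, hA₁⟩ : ∃ A₁, A₁ = d * (U + 2) + 1 := ⟨_, rfl⟩
  obtain ⟨x₀, h0⟩ := one_sign d hd A A₁ B W U ε hε hε1
  have ev : ∀ V : ℕ, ∀ᶠ x : ℕ in Filter.atTop, 2 * Real.log x ^ V ≤ x := by
    intro V
    have h3 : (fun y : ℝ => Real.log y ^ V) =o[Filter.atTop] fun y : ℝ => y := by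
      have := isLittleO_log_rpow_rpow_atTop (s := 1) (V : ℝ) one_pos
      refine (this.congr' ?_ ?_)
      · filter_upwards with y
        rw [← Real.rpow_natCast]
      · filter_upwards with y; simp
    have h4 := h3.def (show (0 : ℝ) < 1 / 2 by positivity)
    filter_upwards [(tendsto_natCast_atTop_atTop (R := ℝ)).eventually h4, Filter.eventually_ge_atTop 1] with x hx hx1
    have hx1' : (1 : ℝ) ≤ x := by exact_mod_cast hx1
    rw [Real.norm_of_nonneg (pow_nonneg (Real.log_nonneg hx1') _), Real.norm_of_nonneg (by linarith)] at hx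
    linarith
  have e2 := (Real.tendsto_log_atTop.comp (tendsto_natCast_atTop_atTop (R := ℝ))).eventually_ge_atTop
    (max (2 * d + 4) ((d + 1) * B + 1))
  obtain ⟨x₁, hx₁⟩ := Filter.eventually_atTop.1 ((ev (U + 2)).and ((ev (W + A₁)).and e2))
  refine ⟨x₀ + x₁ + 1, fun x hx P hP hP1 hP2 hPb => ?_⟩
  obtain ⟨h1, h2, h3⟩ := hx₁ x (by omega)
  simp only [Function.comp] at h3
  have hpos := h0 x (by omega) P hP hP1 hP2 hPb
  have hneg := h0 x (by omega) (-P) (by rw [natDegree_neg]; exact hP) (by rw [coeff_neg, abs_neg]; exact hP1)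
    (by rw [coeff_neg, abs_neg]; exact hP2) (by intro n hn; rw [eval_neg, abs_neg]; exact hPb n hn)
  obtain ⟨L, hL⟩ : ∃ L, L = Real.log (x : ℝ) := ⟨_, rfl⟩
  rw [← hL] at h1 h2 h3 hpos hneg ⊢
  have hd1 : (1 : ℝ) ≤ d := by exact_mod_cast hd
  have hLd : 2 * (d : ℝ) + 4 ≤ L := (le_max_left _ _).trans h3
  have hLB : ((d : ℝ) + 1) * B + 1 ≤ L := (le_max_right _ _).trans h3
  have hL0 : 0 < L := by linarith
  have hL1 : 1 ≤ L := by linarith
  have hx1 : 1 ≤ x := by omega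
  have hx1r : (1 : ℝ) ≤ x := by exact_mod_cast hx1
  have hx0 : (0 : ℝ) < x := by linarith
  have hxd : (x : ℝ) ≤ (x : ℝ) ^ d := le_self_pow₀ hx1r (by omega)
  have hB0 : (0 : ℝ) ≤ B := Nat.cast_nonneg B
  -- the small values
  obtain ⟨S₀, hS₀⟩ : ∃ S₀ : Finset ℕ, S₀ = (Icc 1 x).filter (fun n : ℕ => |P.eval (n : ℝ)| ≤ (x : ℝ) ^ d / L ^ A₁) := ⟨_, rfl⟩
  obtain ⟨g, hg⟩ : ∃ g : ℕ, g = ⌈(x : ℝ) / L ^ (U + 2)⌉₊ := ⟨_, rfl⟩
  have hg1 : (x : ℝ) / L ^ (U + 2) ≤ g := by rw [hg]; exact Nat.le_ceil _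
  have hxU : 2 ≤ (x : ℝ) / L ^ (U + 2) := by rw [le_div_iff₀ (by positivity)]; exact h1
  have hg2 : (g : ℝ) ≤ 2 * (x / L ^ (U + 2)) := by
    have := (Nat.ceil_lt_add_one (show 0 ≤ (x : ℝ) / L ^ (U + 2) by positivity)).le
    rw [← hg] at this
    linarith
  have hg3 : 1 ≤ g := by
    have : (0 : ℝ) < g := by linarith
    exact_mod_cast this
  have hS₀c : (S₀.card : ℝ) ≤ x / L ^ (U + 1) - 4 * (x / L ^ (U + 2)) := by
    have h4 := Pool.Agent.T2H58.SE.small_vals d P hP S₀ ((x : ℝ) ^ d / L ^ A₁) (by positivity) (by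
      intro n hn
      rw [hS₀, mem_filter] at hn
      exact hn.2) g (by
      have h5 : ((x : ℝ) / L ^ (U + 2)) ^ d ≤ (g : ℝ) ^ d := by gcongr
      have h6 : ((x : ℝ) / L ^ (U + 2)) ^ d = L * ((x : ℝ) ^ d / L ^ A₁) := by
        have e : L ^ A₁ = L * (L ^ (U + 2)) ^ d := by
          rw [hA₁, pow_succ', ← pow_mul, mul_comm (U + 2) d]
        rw [div_pow, e]
        field_simp
      have h7 : 0 < (x : ℝ) ^ d / L ^ A₁ := by positivity
      have hB1 : 0 < (B : ℝ) := by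
        rcases hB0.eq_or_lt with h | h
        · rw [← h] at hP1; linarith
        · exact h
      have h8 : (d + 1) * ((x : ℝ) ^ d / L ^ A₁) * B < (|P.coeff d| * (g : ℝ) ^ d) * B := by
        calc (d + 1) * ((x : ℝ) ^ d / L ^ A₁) * B = ((d + 1) * B) * ((x : ℝ) ^ d / L ^ A₁) := by ring
          _ < L * ((x : ℝ) ^ d / L ^ A₁) := mul_lt_mul_of_pos_right (by linarith) h7
          _ = ((x : ℝ) / L ^ (U + 2)) ^ d := h6.symm
          _ ≤ (g : ℝ) ^ d := h5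
          _ ≤ (B * |P.coeff d|) * (g : ℝ) ^ d := le_mul_of_one_le_left (by positivity) hP1
          _ = _ := by ring
      exact lt_of_mul_lt_mul_right h8 hB1.le) hg3
    have h5 : (S₀.card : ℝ) ≤ d * g := by exact_mod_cast h4
    have h6 : (d : ℝ) * g ≤ d * (2 * (x / L ^ (U + 2))) := by gcongr
    have h7 : (x : ℝ) / L ^ (U + 1) = L * (x / L ^ (U + 2)) := by rw [pow_succ L (U + 1)]; field_simp
    rw [h7]
    nlinarith
  have hsub : (Icc 1 x).filter (fun n : ℕ => ¬ ∀ Q : ℤ, abs ((Q : ℝ) - |P.eval (n : ℝ)|) ≤ L ^ W →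
      0 < Q ∧ Good ε (L ^ A) Q.toNat) ⊆ S₀ ∪ ((Icc 1 x).filter (fun n : ℕ => ∃ Q : ℕ, |(Q : ℝ) - P.eval (n : ℝ)| ≤ L ^ W ∧
        (x : ℝ) ^ d ≤ 2 * L ^ A₁ * Q ∧ ¬ Good ε (L ^ A) Q) ∪ (Icc 1 x).filter (fun n : ℕ => ∃ Q : ℕ,
        |(Q : ℝ) - (-P).eval (n : ℝ)| ≤ L ^ W ∧ (x : ℝ) ^ d ≤ 2 * L ^ A₁ * Q ∧ ¬ Good ε (L ^ A) Q)) := by
    intro n hn
    rw [mem_filter] at hn
    obtain ⟨hn1, hn2⟩ := hn
    push Not at hn2
    obtain ⟨Q, hQ, hbad⟩ := hn2
    rw [mem_union, mem_union, mem_filter, mem_filter]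
    by_cases h4 : |P.eval (n : ℝ)| ≤ (x : ℝ) ^ d / L ^ A₁
    · left
      rw [hS₀, mem_filter]
      exact ⟨hn1, h4⟩
    · right
      push Not at h4
      have h5 : 2 * L ^ W ≤ (x : ℝ) ^ d / L ^ A₁ := by
        rw [le_div_iff₀ (by positivity), mul_assoc, ← pow_add]
        linarith
      have h6 : (x : ℝ) ^ d / L ^ A₁ ≤ 2 * (Q : ℝ) := by
        rw [abs_le] at hQ
        linarith [hQ.1]
      have h7 : 0 < (Q : ℝ) := by
        have : 0 < (x : ℝ) ^ d / L ^ A₁ := by positivity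
        linarith
      have h8 : 0 < Q := by exact_mod_cast h7
      have h9 := hbad h8
      have h10 : ((Q.toNat : ℕ) : ℝ) = Q := by
        have : ((Q.toNat : ℕ) : ℤ) = Q := Int.toNat_of_nonneg h8.le
        exact_mod_cast this
      have h11 : (x : ℝ) ^ d ≤ 2 * L ^ A₁ * (Q.toNat : ℕ) := by
        rw [h10]
        rw [div_le_iff₀ (by positivity)] at h6
        linarith
      rcases le_total 0 (P.eval (n : ℝ)) with h12 | h12
      · left
        rw [abs_of_nonneg h12] at hQ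
        exact ⟨hn1, Q.toNat, by rw [h10]; exact hQ, h11, h9⟩
      · right
        rw [abs_of_nonpos h12] at hQ
        exact ⟨hn1, Q.toNat, by rw [h10, eval_neg]; exact hQ, h11, h9⟩
  have h4 := (card_le_card hsub).trans ((card_union_le _ _).trans (Nat.add_le_add_left (card_union_le _ _) _))
  have h5 := (Nat.cast_le (α := ℝ)).2 h4
  push_cast at h5
  refine h5.trans ?_
  have h6 : (x : ℝ) / L ^ (U + 1) ≤ x / L ^ U :=
    div_le_div_of_nonneg_left hx0.le (by positivity) (pow_le_pow_right₀ hL1 (by omega))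
  have h7 : 0 ≤ (x : ℝ) / L ^ (U + 2) := by positivity
  linarith

end Pool.Agent.Results.MP_5d318d_nt.RealPolynomialModuli
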