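import Pool.Agent.T2H58.SE.Gen
import Pool.Agent.TH935.HM1

/-!
# Hooley's conjecture for almost all moduli in Piatetski-Shapiro sequences

Nothing is used besides Mathlib in the statement.

Method. By the estimates of van der Corput and of Kusmin and Landau, the additive energy of a sufficiently large order `h`
of the integers `⌊f(n)⌋`, `n ≤ x`, is at most `x^(2h-c)` times a power of `log x`. The circle method then gives the
correlations of the von Mangoldt function with small multiples of almost all of these moduli.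
-/

set_option autoImplicit false

namespace Pool.Agent.Results.MP_5d318d_nt.RealPowerModuli

open Finset

/-- `ψ(x; q, a) = ∑_{n ≤ x, n ≡ a mod q} Λ(n)` for `0 ≤ a < q` -/
noncomputable def psiAP (x : ℝ) (q a : ℕ) : ℝ :=
  ∑ n ∈ (Icc 1 ⌊x⌋₊).filter (fun n => n % q = a), ArithmeticFunction.vonMangoldt n

/-- The variance `G(x,q) = ∑_{a mod q, (a,q)=1} (ψ(x;q,a) - x/φ(q))²`. -/
noncomputable def G (x : ℝ) (q : ℕ) : ℝ :=
  ∑ a ∈ (range q).filter (fun a => Nat.Coprime a q), (psiAP x q a - x / (Nat.totient q : ℝ)) ^ 2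

/-- `|G(y,Q) - y log Q| ≤ ε y log Q` for ALL real `y` with `Q ≤ y ≤ Q R`. -/
def Good (ε R : ℝ) (Q : ℕ) : Prop :=
  ∀ y : ℝ, (Q : ℝ) ≤ y → y ≤ Q * R → |G y Q - y * Real.log Q| ≤ ε * (y * Real.log Q)

/-- the function `f(x) = α x^c + ∑ β_i x^(γ_i)` -/
noncomputable def gpow (α c : ℝ) {l : ℕ} (β γ : Fin l → ℝ) (x : ℝ) : ℝ := α * x ^ c + ∑ i, β i * x ^ (γ i)

theorem gpow_eq (α c : ℝ) {l : ℕ} (β γ : Fin l → ℝ) : gpow α c β γ = Pool.Agent.T2H58.SE.gp α c β γ := rfl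

open Classical in
theorem first (α : ℝ) (hα : α ≠ 0) (c : ℝ) (hc : 0 < c) (hcn : ∀ n : ℕ, c ≠ n) {l : ℕ} (β γ : Fin l → ℝ)
    (hγ : ∀ i, γ i < c) (μ : ℤ) (hμ : μ ≠ 0) (A B U : ℕ) (ε : ℝ) (hε : 0 < ε) (hε1 : ε ≤ 1) :
    ∃ x₀ : ℕ, ∀ x : ℕ, x₀ ≤ x → ∀ c₀ : ℤ, (|c₀| : ℝ) ≤ B * (x : ℝ) ^ c →
      (((Icc 1 x).filter (fun n : ℕ => (x : ℝ) ^ c ≤ ((c₀ + μ * ⌊gpow α c β γ n⌋ : ℤ) : ℝ) * Real.log x ^ A ∧
        ¬ Good ε (Real.log x ^ A) (c₀ + μ * ⌊gpow α c β γ n⌋).toNat)).card : ℝ) ≤ x / Real.log x ^ U := by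
  obtain ⟨h, C, hh, hen⟩ := Pool.Agent.T2H58.SE.fam_energy α hα c hc hcn β γ hγ
  obtain ⟨B₁, hB₁⟩ : ∃ B₁ : ℝ, B₁ = max 1 (B + |(μ : ℝ)| * (|α| + ∑ i, |β i| + 1)) := ⟨_, rfl⟩
  have hB₁1 : 1 ≤ B₁ := by rw [hB₁]; exact le_max_left _ _
  have hB₁2 : B + |(μ : ℝ)| * (|α| + ∑ i, |β i| + 1) ≤ B₁ := by rw [hB₁]; exact le_max_right _ _
  obtain ⟨x₁, _, hen1⟩ := hen (2 * B₁) (by positivity)
  obtain ⟨N₀, hmod⟩ := Pool.Agent.TH935.HM.mod_fam h C (A + 1) (U + 1) ε hε hε1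
  obtain ⟨x₂, hx₂, hlog⟩ := Pool.Agent.T2H58.SE.logs c hc (2 * B₁) A N₀
  obtain ⟨x₃, _, hlog3⟩ := Pool.Agent.T2H58.SE.logs c hc 1 U N₀
  refine ⟨max x₁ (max x₂ x₃), fun x hx c₀ hc₀ => ?_⟩
  have hxx1 : x₁ ≤ x := (le_max_left _ _).trans hx
  have hxx2 : x₂ ≤ x := (le_max_left _ _).trans ((le_max_right _ _).trans hx)
  have hxx3 : x₃ ≤ x := (le_max_right _ _).trans ((le_max_right _ _).trans hx)
  have hx1 : (1 : ℝ) ≤ x := by exact_mod_cast (by omega : 1 ≤ x)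
  have hxc : 1 ≤ (x : ℝ) ^ c := Real.one_le_rpow hx1 hc.le
  obtain ⟨hl1, hlog'⟩ := hlog x hxx2
  obtain ⟨N, hN⟩ : ∃ N : ℕ, N = ⌈B₁ * (x : ℝ) ^ c⌉₊ := ⟨_, rfl⟩
  have hN1 : B₁ * (x : ℝ) ^ c ≤ N := by rw [hN]; exact Nat.le_ceil _
  have hN2 : (N : ℝ) ≤ 2 * B₁ * (x : ℝ) ^ c := by
    have h1 := (Nat.ceil_lt_add_one (show 0 ≤ B₁ * (x : ℝ) ^ c by positivity)).le
    rw [← hN] at h1
    nlinarith
  have hN3 : (x : ℝ) ^ c ≤ N := by nlinarith
  obtain ⟨hN0, hlA⟩ := hlog' N hN3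
  obtain ⟨-, hlU⟩ := (hlog3 x hxx3).2 N hN3
  rw [one_mul] at hlU
  have hlx0 : 0 < Real.log x := by linarith
  have hlxA : 1 ≤ Real.log x ^ A := one_le_pow₀ hl1
  have h1 := hmod N hN0 x (fun m => c₀ + μ * ⌊gpow α c β γ m⌋) (by
    intro m hm
    have h2 := Pool.Agent.T2H58.SE.fam_bd α c hc β γ hγ μ B c₀ hc₀ hm
    have h3 : ((|c₀ + μ * ⌊gpow α c β γ m⌋| : ℤ) : ℝ) ≤ N := by
      rw [gpow_eq]
      refine h2.trans (le_trans ?_ hN1)
      exact mul_le_mul_of_nonneg_right hB₁2 (by positivity)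
    exact_mod_cast h3) (by
    rw [gpow_eq]
    exact hen1 x hxx1 c₀ μ hμ N hN3 hN2)
    ((Icc 1 x).filter (fun n : ℕ => (x : ℝ) ^ c ≤ ((c₀ + μ * ⌊gpow α c β γ n⌋ : ℤ) : ℝ) * Real.log x ^ A ∧
        ¬ Good ε (Real.log x ^ A) (c₀ + μ * ⌊gpow α c β γ n⌋).toNat)) (filter_subset _ _) (by
    intro m hm
    rw [mem_filter] at hm
    obtain ⟨_, h2, h3⟩ := hm
    obtain ⟨Q, hQ⟩ : ∃ Q, Q = c₀ + μ * ⌊gpow α c β γ m⌋ := ⟨_, rfl⟩
    rw [← hQ] at h2 h3 ⊢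
    have hQ0 : 0 < Q := by
      by_contra hcon
      push Not at hcon
      have h4 : (Q : ℝ) ≤ 0 := by exact_mod_cast hcon
      have h5 : (Q : ℝ) * Real.log x ^ A ≤ 0 := mul_nonpos_of_nonpos_of_nonneg h4 (by positivity)
      linarith
    have hQr : ((Q.toNat : ℕ) : ℝ) = (Q : ℝ) := by
      have : ((Q.toNat : ℕ) : ℤ) = Q := Int.toNat_of_nonneg hQ0.le
      exact_mod_cast this
    have hQr0 : (0 : ℝ) < Q := by exact_mod_cast hQ0
    refine ⟨hQ0, ?_, ?_⟩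
    · rw [hQr]
      calc (N : ℝ) ≤ 2 * B₁ * (x : ℝ) ^ c := hN2
        _ ≤ 2 * B₁ * (Q * Real.log x ^ A) := by gcongr
        _ = Q * (2 * B₁ * Real.log x ^ A) := by ring
        _ ≤ Q * Real.log N ^ (A + 1) := by gcongr
    · unfold Good at h3
      push Not at h3
      obtain ⟨y, hy1, hy2, hy3⟩ := h3
      refine ⟨y, hy1, hy2.trans ?_, not_le.2 hy3⟩
      rw [hQr]
      apply mul_le_mul_of_nonneg_left _ hQr0.le
      refine le_trans ?_ hlA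
      nlinarith)
  refine h1.trans ?_
  apply div_le_div_of_nonneg_left (Nat.cast_nonneg _) (by positivity) hlU

open Classical in
/-- **Hooley's conjecture for almost all moduli in Piatetski-Shapiro sequences.** Let `f(x) = α x^c + ∑ β_i x^(γ_i)` with
real `α ≠ 0`, `c > 0`, `β_i`, `γ_i < c`, where `c` is not an integer (for instance `f(x) = x^c`, or `x^c` plus an arbitrary
real polynomial of degree less than `c`). Let `A`, `B`, `U`, the integer `μ ≠ 0` and `0 < ε ≤ 1` be fixed.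
1. Let `x` be large and let `c₀` be an arbitrary integer with `|c₀| ≤ B x^c`. For all the integers `1 ≤ n ≤ x`, with at
most `x / (log x)^U` exceptions, the modulus `Q = c₀ + μ ⌊f(n)⌋` is smaller than `x^c / (log x)^A`, or it satisfies
`|G(y,Q) - y log Q| ≤ ε y log Q` for ALL real `y` with `Q ≤ y ≤ Q (log x)^A`.
2. If `α > 0` and `x` is large then, for all the integers `1 ≤ n ≤ x` with at most `x / (log x)^U` exceptions, the modulus
`Q = ⌊f(n)⌋` is positive and satisfies `|G(y,Q) - y log Q| ≤ ε y log Q` for ALL real `y` with `Q ≤ y ≤ Q (log x)^A`. -/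
theorem result (α : ℝ) (hα : α ≠ 0) (c : ℝ) (hc : 0 < c) (hcn : ∀ n : ℕ, c ≠ n) {l : ℕ} (β γ : Fin l → ℝ)
    (hγ : ∀ i, γ i < c) (μ : ℤ) (hμ : μ ≠ 0) (A B U : ℕ) (ε : ℝ) (hε : 0 < ε) (hε1 : ε ≤ 1) :
    (∃ x₀ : ℕ, ∀ x : ℕ, x₀ ≤ x → ∀ c₀ : ℤ, (|c₀| : ℝ) ≤ B * (x : ℝ) ^ c →
      (((Icc 1 x).filter (fun n : ℕ => (x : ℝ) ^ c ≤ ((c₀ + μ * ⌊gpow α c β γ n⌋ : ℤ) : ℝ) * Real.log x ^ A ∧
        ¬ Good ε (Real.log x ^ A) (c₀ + μ * ⌊gpow α c β γ n⌋).toNat)).card : ℝ) ≤ x / Real.log x ^ U) ∧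
    (0 < α → ∃ x₀ : ℕ, ∀ x : ℕ, x₀ ≤ x →
      (((Icc 1 x).filter (fun n : ℕ => ¬ (0 < ⌊gpow α c β γ n⌋ ∧
        Good ε (Real.log x ^ A) ⌊gpow α c β γ n⌋.toNat))).card : ℝ) ≤ x / Real.log x ^ U) := by
  refine ⟨first α hα c hc hcn β γ hγ μ hμ A B U ε hε hε1, fun hα0 => ?_⟩
  obtain ⟨V, hV⟩ : ∃ V : ℕ, V = ⌈(U + 1 : ℝ) * c⌉₊ := ⟨_, rfl⟩
  have hVc : (U + 1 : ℝ) * c ≤ V := by rw [hV]; exact Nat.le_ceil _
  obtain ⟨A', hA'⟩ : ∃ A', A' = A + V + 1 := ⟨_, rfl⟩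
  obtain ⟨x₀, h0⟩ := first α hα c hc hcn β γ hγ 1 one_ne_zero A' 0 (U + 1) ε hε hε1
  obtain ⟨n₀, hn₀⟩ := Filter.eventually_atTop.1 (Pool.Agent.T2H58.SE.gp_low α c hα0 β γ hγ)
  -- `x / log^(U+1) x → ∞`, `log x → ∞`
  have e1 : ∀ᶠ x : ℕ in Filter.atTop, ((n₀ : ℝ) + 1) * Real.log x ^ (U + 1) ≤ x := by
    have h3 : (fun y : ℝ => Real.log y ^ (U + 1)) =o[Filter.atTop] fun y : ℝ => y := by
      have := isLittleO_log_rpow_rpow_atTop (s := 1) (U + 1 : ℝ) one_pos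
      refine (this.congr' ?_ ?_)
      · filter_upwards [Filter.eventually_ge_atTop 1] with y hy
        rw [← Real.rpow_natCast]; push_cast; rfl
      · filter_upwards with y; simp
    have h4 := h3.def (show (0 : ℝ) < 1 / (n₀ + 1) by positivity)
    filter_upwards [(tendsto_natCast_atTop_atTop (R := ℝ)).eventually h4, Filter.eventually_ge_atTop 1] with x hx hx1
    have hx1' : (1 : ℝ) ≤ x := by exact_mod_cast hx1
    rw [Real.norm_of_nonneg (pow_nonneg (Real.log_nonneg hx1') _), Real.norm_of_nonneg (by linarith)] at hx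
    have hn : (0 : ℝ) < n₀ + 1 := by positivity
    calc ((n₀ : ℝ) + 1) * Real.log x ^ (U + 1) ≤ (n₀ + 1) * (1 / (n₀ + 1) * x) := by gcongr
      _ = x := by field_simp
  have e2 := (Real.tendsto_log_atTop.comp (tendsto_natCast_atTop_atTop (R := ℝ))).eventually_ge_atTop (max 3 (4 / α))
  have e3 : ∀ᶠ x : ℕ in Filter.atTop, 4 / α * Real.log x ^ V ≤ (x : ℝ) ^ c := by
    have h3 : (fun y : ℝ => Real.log y ^ V) =o[Filter.atTop] fun y : ℝ => y ^ c := by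
      have := isLittleO_log_rpow_rpow_atTop (s := c) (V : ℝ) hc
      refine (this.congr' ?_ ?_)
      · filter_upwards with y
        rw [← Real.rpow_natCast]
      · filter_upwards with y; simp
    have h4 := h3.def (show (0 : ℝ) < α / 4 by positivity)
    filter_upwards [(tendsto_natCast_atTop_atTop (R := ℝ)).eventually h4, Filter.eventually_ge_atTop 1] with x hx hx1
    have hx1' : (1 : ℝ) ≤ x := by exact_mod_cast hx1
    rw [Real.norm_of_nonneg (pow_nonneg (Real.log_nonneg hx1') _), Real.norm_of_nonneg (by positivity)] at hx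
    calc 4 / α * Real.log x ^ V ≤ 4 / α * (α / 4 * (x : ℝ) ^ c) := by gcongr
      _ = (x : ℝ) ^ c := by field_simp
  obtain ⟨x₁, hx₁⟩ := Filter.eventually_atTop.1 (e1.and (e2.and e3))
  refine ⟨max (max x₀ x₁) 2, fun x hx => ?_⟩
  have hxx0 : x₀ ≤ x := (le_max_left _ _).trans ((le_max_left _ _).trans hx)
  have hxx1 : x₁ ≤ x := (le_max_right _ _).trans ((le_max_left _ _).trans hx)
  have hxx2 : 2 ≤ x := (le_max_right _ _).trans hx
  have hx2 : (2 : ℝ) ≤ x := by exact_mod_cast hxx2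
  have hx0 : (0 : ℝ) < x := by linarith
  obtain ⟨h1, h2, h3⟩ := hx₁ x hxx1
  simp only [Function.comp] at h2
  obtain ⟨L, hL⟩ : ∃ L, L = Real.log (x : ℝ) := ⟨_, rfl⟩
  rw [← hL] at h1 h2 h3
  have hL3 : 3 ≤ L := (le_max_left _ _).trans h2
  have hL4 : 4 / α ≤ L := (le_max_right _ _).trans h2
  have hL0 : 0 < L := by linarith
  have hxc0 : 0 < (x : ℝ) ^ c := by positivity
  -- the exceptions
  have hsub : (Icc 1 x).filter (fun n : ℕ => ¬ (0 < ⌊gpow α c β γ n⌋ ∧ Good ε (Real.log x ^ A) ⌊gpow α c β γ n⌋.toNat)) ⊆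
      (Icc 1 ⌊(x : ℝ) / L ^ (U + 1)⌋₊) ∪ (Icc 1 x).filter (fun n : ℕ => (x : ℝ) ^ c ≤ ((0 + 1 * ⌊gpow α c β γ n⌋ : ℤ) : ℝ) *
        Real.log x ^ A' ∧ ¬ Good ε (Real.log x ^ A') (0 + 1 * ⌊gpow α c β γ n⌋).toNat) := by
    intro n hn
    rw [mem_filter, mem_Icc] at hn
    obtain ⟨⟨hn1, hn2⟩, hn3⟩ := hn
    rw [mem_union]
    by_cases h4 : (n : ℝ) ≤ (x : ℝ) / L ^ (U + 1)
    · left
      rw [mem_Icc]
      exact ⟨hn1, Nat.le_floor h4⟩
    · right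
      push Not at h4
      rw [mem_filter, mem_Icc, zero_add, one_mul]
      refine ⟨⟨hn1, hn2⟩, ?_⟩
      have hnn : (0 : ℝ) < n := by exact_mod_cast hn1
      have hnn₀ : n₀ ≤ n := by
        have h5 : (n₀ : ℝ) ≤ x / L ^ (U + 1) := by
          rw [le_div_iff₀ (by positivity)]
          have : (n₀ : ℝ) * L ^ (U + 1) ≤ (n₀ + 1) * L ^ (U + 1) := by
            apply mul_le_mul_of_nonneg_right (by linarith) (by positivity)
          linarith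
        exact_mod_cast (h5.trans h4.le)
      have h5 := hn₀ n hnn₀
      -- the size of `n^c`
      have h6 : (x : ℝ) ^ c / L ^ V ≤ (n : ℝ) ^ c := by
        have h7 : ((x : ℝ) / L ^ (U + 1)) ^ c ≤ (n : ℝ) ^ c := Real.rpow_le_rpow (by positivity) h4.le hc.le
        refine le_trans ?_ h7
        rw [Real.div_rpow hx0.le (by positivity)]
        apply div_le_div_of_nonneg_left hxc0.le (by positivity)
        rw [← Real.rpow_natCast, ← Real.rpow_mul hL0.le, ← Real.rpow_natCast]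
        apply Real.rpow_le_rpow_of_exponent_le (by linarith)
        push_cast
        exact hVc
      have h7 : 2 ≤ α / 2 * (n : ℝ) ^ c := by
        have h8 : 4 / α ≤ (x : ℝ) ^ c / L ^ V := by rw [le_div_iff₀ (by positivity)]; exact h3
        have h9 : 4 / α ≤ (n : ℝ) ^ c := h8.trans h6
        rw [div_le_iff₀ hα0] at h9
        linarith
      have h8 : α / 4 * (n : ℝ) ^ c ≤ ((⌊gpow α c β γ n⌋ : ℤ) : ℝ) := by
        have h9 := Int.lt_floor_add_one (gpow α c β γ n)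
        rw [gpow_eq] at h9 ⊢
        linarith
      have hpos : 0 < ⌊gpow α c β γ n⌋ := by
        have h9 : (0 : ℝ) < ((⌊gpow α c β γ n⌋ : ℤ) : ℝ) := by linarith
        exact_mod_cast h9
      refine ⟨?_, ?_⟩
      · rw [← hL]
        have h9 : (x : ℝ) ^ c ≤ (n : ℝ) ^ c * L ^ V := by rwa [div_le_iff₀ (by positivity)] at h6
        have h10 : 1 ≤ α / 4 * L := by
          rw [div_le_iff₀ hα0] at hL4; linarith
        have h11 : L ^ V * L ≤ L ^ A' := by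
          rw [← pow_succ]; exact pow_le_pow_right₀ (by linarith) (by omega)
        calc (x : ℝ) ^ c ≤ (n : ℝ) ^ c * L ^ V * 1 := by rw [mul_one]; exact h9
          _ ≤ (n : ℝ) ^ c * L ^ V * (α / 4 * L) := by gcongr
          _ = α / 4 * (n : ℝ) ^ c * (L ^ V * L) := by ring
          _ ≤ ((⌊gpow α c β γ n⌋ : ℤ) : ℝ) * L ^ A' := by
              apply mul_le_mul h8 h11 (by positivity)
              have : (0 : ℝ) < ((⌊gpow α c β γ n⌋ : ℤ) : ℝ) := by exact_mod_cast hpos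
              linarith
      · intro hgood
        apply hn3
        refine ⟨hpos, fun y hy1 hy2 => hgood y hy1 (hy2.trans ?_)⟩
        apply mul_le_mul_of_nonneg_left _ (Nat.cast_nonneg _)
        rw [← hL]
        exact pow_le_pow_right₀ (by linarith) (by omega)
  have h4 := card_le_card hsub
  have h5 := h4.trans (card_union_le _ _)
  have h6 := h0 x hxx0 0 (by simp)
  rw [← hL] at h6 ⊢
  have h7 : (((Icc 1 ⌊(x : ℝ) / L ^ (U + 1)⌋₊).card : ℕ) : ℝ) ≤ x / L ^ (U + 1) := by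
    rw [Nat.card_Icc, Nat.add_sub_cancel]
    exact Nat.floor_le (by positivity)
  have h8 : (((Icc 1 x).filter (fun n : ℕ => ¬ (0 < ⌊gpow α c β γ n⌋ ∧ Good ε (L ^ A) ⌊gpow α c β γ n⌋.toNat))).card : ℝ) ≤
      x / L ^ (U + 1) + x / L ^ (U + 1) := by
    rw [← hL] at h5
    have h9 : (((Icc 1 x).filter (fun n : ℕ => ¬ (0 < ⌊gpow α c β γ n⌋ ∧ Good ε (L ^ A) ⌊gpow α c β γ n⌋.toNat))).card : ℝ) ≤
        (((Icc 1 ⌊(x : ℝ) / L ^ (U + 1)⌋₊).card : ℕ) : ℝ) + (((Icc 1 x).filter (fun n : ℕ => (x : ℝ) ^ c ≤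
          ((0 + 1 * ⌊gpow α c β γ n⌋ : ℤ) : ℝ) * L ^ A' ∧ ¬ Good ε (L ^ A') (0 + 1 * ⌊gpow α c β γ n⌋).toNat)).card : ℝ) := by
      exact_mod_cast h5
    exact h9.trans (add_le_add h7 h6)
  refine h8.trans ?_
  have e : (x : ℝ) / L ^ U = (x / L ^ (U + 1)) * L := by rw [pow_succ]; field_simp
  rw [e]
  have h9 : 0 ≤ (x : ℝ) / L ^ (U + 1) := by positivity
  nlinarith

end Pool.Agent.Results.MP_5d318d_nt.RealPowerModuli
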